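import Pool.Agent.Lib.MP_acafa7_al.F.IfaceG

/-! CST: bounds for the lengths of the edges and the areas of the triangles. -/

namespace MSG.F31

open Classical

theorem tarea_pos {a b c : ℝ} (ha : 0 < a) (hb : 0 < b) (h1 : c < a + b) (h2 : a < b + c)
    (h3 : b < a + c) : 0 < tarea a b c := by
  unfold tarea ang
  have hab : 0 < 2 * a * b := by positivity
  have t1 : (a ^ 2 + b ^ 2 - c ^ 2) / (2 * a * b) < 1 := by
    rw [div_lt_one hab]
    nlinarith [mul_pos (show 0 < c - (a - b) by linarith) (show 0 < c + (a - b) by linarith)]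
  have t2 : -1 < (a ^ 2 + b ^ 2 - c ^ 2) / (2 * a * b) := by
    rw [lt_div_iff₀ hab]
    have hc : 0 < a + b + c := by linarith
    nlinarith [mul_pos (show 0 < a + b - c by linarith) hc]
  rw [Real.sin_arccos]
  have h : 0 < √(1 - ((a ^ 2 + b ^ 2 - c ^ 2) / (2 * a * b)) ^ 2) := by
    apply Real.sqrt_pos.2
    nlinarith [mul_pos (show 0 < 1 - (a ^ 2 + b ^ 2 - c ^ 2) / (2 * a * b) by linarith)
      (show 0 < 1 + (a ^ 2 + b ^ 2 - c ^ 2) / (2 * a * b) by linarith)]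
  positivity

theorem cst_st : CstStatement := by
  intro V X Γ _ _ hX hG
  obtain ⟨s, hs⟩ := hG.cocompact
  -- edges with first vertex in `s`
  have hE : {p : V × V | p.1 ∈ s ∧ X.G.Adj p.1 p.2}.Finite := by
    have h : (⋃ x ∈ s, (fun y => (x, y)) '' {y | X.G.Adj x y}).Finite :=
      Set.Finite.biUnion s.finite_toSet (fun x _ => (hG.locfin x).image _)
    refine h.subset ?_
    rintro ⟨x, y⟩ ⟨hx, hxy⟩
    simp only [Set.mem_iUnion]
    exact ⟨x, hx, y, hxy, rfl⟩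
  have hT : {p : V × V × V | p.1 ∈ s ∧ X.G.Adj p.1 p.2.1 ∧ X.G.Adj p.2.1 p.2.2 ∧
      X.G.Adj p.1 p.2.2}.Finite := by
    have h : (⋃ x ∈ s, (fun q : V × V => (x, q)) ''
        ({y | X.G.Adj x y} ×ˢ {y | X.G.Adj x y})).Finite :=
      Set.Finite.biUnion s.finite_toSet
        (fun x _ => ((hG.locfin x).prod (hG.locfin x)).image _)
    refine h.subset ?_
    rintro ⟨x, y, z⟩ ⟨hx, hxy, -, hxz⟩
    simp only [Set.mem_iUnion]
    exact ⟨x, hx, (y, z), ⟨hxy, hxz⟩, rfl⟩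
  obtain ⟨Λ, hΛ⟩ := (hE.image (fun p : V × V => X.len p.1 p.2)).bddAbove
  -- area
  have hpos : ∀ x y z, X.G.Adj x y → X.G.Adj y z → X.G.Adj x z →
      0 < tarea (X.len x y) (X.len y z) (X.len z x) := by
    intro x y z hxy hyz hxz
    have e1 := hX.metric.symm z x
    have e2 := hX.metric.symm x y
    have e3 := hX.metric.symm y z
    have i1 := hX.metric.tri x y z hxy hyz hxz
    have i2 := hX.metric.tri x z y hxz hyz.symm hxy
    have i3 := hX.metric.tri y x z hxy.symm hxz hyz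
    refine tarea_pos (hX.metric.pos _ _ hxy) (hX.metric.pos _ _ hyz) ?_ ?_ ?_
    · linarith
    · linarith
    · linarith
  obtain ⟨a₀, ha₀, hT₀⟩ : ∃ a₀ : ℝ, 0 < a₀ ∧ ∀ x y z, x ∈ s → X.G.Adj x y → X.G.Adj y z →
      X.G.Adj x z → a₀ ≤ tarea (X.len x y) (X.len y z) (X.len z x) := by
    have hfin := hT.image (fun p : V × V × V =>
      tarea (X.len p.1 p.2.1) (X.len p.2.1 p.2.2) (X.len p.2.2 p.1))
    have hfin' := hfin.insert 1
    obtain ⟨a₀, h1, h2⟩ := hfin'.exists_minimal ⟨1, Set.mem_insert _ _⟩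
    have h3 : ∀ b ∈ insert (1 : ℝ) ((fun p : V × V × V =>
      tarea (X.len p.1 p.2.1) (X.len p.2.1 p.2.2) (X.len p.2.2 p.1)) ''
        {p : V × V × V | p.1 ∈ s ∧ X.G.Adj p.1 p.2.1 ∧ X.G.Adj p.2.1 p.2.2 ∧
      X.G.Adj p.1 p.2.2}), a₀ ≤ b := by
      intro b hb
      rcases le_total a₀ b with h | h
      · exact h
      · exact h2 hb h
    refine ⟨a₀, ?_, ?_⟩
    · rcases h1 with h1 | ⟨⟨x, y, z⟩, ⟨-, hxy, hyz, hxz⟩, h⟩
      · rw [h1]; exact one_pos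
      · rw [← h]
        exact hpos x y z hxy hyz hxz
    · intro x y z hx hxy hyz hxz
      exact h3 _ (Set.mem_insert_of_mem _ ⟨(x, y, z), ⟨hx, hxy, hyz, hxz⟩, rfl⟩)
  refine ⟨a₀, Λ, ha₀, ?_, ?_⟩
  · intro x y hxy
    obtain ⟨g, x', hx', rfl⟩ := hs x
    obtain ⟨y', rfl⟩ : ∃ y', g • y' = y := ⟨g⁻¹ • y, smul_inv_smul g y⟩
    rw [hG.adj] at hxy
    rw [hG.len]
    exact hΛ ⟨(x', y'), ⟨hx', hxy⟩, rfl⟩
  · intro x y z hxy hyz hxz
    obtain ⟨g, x', hx', rfl⟩ := hs x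
    obtain ⟨y', rfl⟩ : ∃ y', g • y' = y := ⟨g⁻¹ • y, smul_inv_smul g y⟩
    obtain ⟨z', rfl⟩ : ∃ z', g • z' = z := ⟨g⁻¹ • z, smul_inv_smul g z⟩
    rw [hG.adj] at hxy hyz hxz
    rw [hG.len, hG.len, hG.len]
    exact hT₀ _ _ _ hx' hxy hyz hxz

end MSG.F31
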