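import Pool.Agent.Lib.MP_acafa7_al.F.IfaceC
import Pool.Agent.Lib.MP_acafa7_al.MS.H64.HomB

/-! IDC: the chains of the squares and their cocycle identity. -/

namespace MSG.F31

open Classical

theorem isW_smul {V : Type} {G : SimpleGraph V} {B : Type} [Group B] [MulAction B V]
    (ha : Aut G B) (b : B) {x y : V} {l : List V} (hl : IsW G x y l) :
    IsW G (b • x) (b • y) (l.map (b • ·)) :=
  MSG.H64.B.isW_map (MulAction.toPerm b) (fun x y => ha b x y) hl

theorem idc_st (h1 : HAlgStatement) : IdcStatement := by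
  intro V G B _ _ ha S Y _ _ π c hcm htk B' x y γ al al' U U' W hγ hγS hC hC' hU hU' hUf hUf' hW
  -- homotopy algebra
  obtain ⟨hTr, -, hSy, -, hMo, -, -, -, -, -, hL, hR⟩ := h1 V (Ch2 Y) G S (om π c)
  have hMoT : ∀ (T : Set V), T ⊆ S → ∀ l l' e, HomA G T (om π c) l l' e →
      HomA G S (om π c) l l' e := fun T hT l l' e h =>
    (h1 V (Ch2 Y) G T (om π c)).2.2.2.2.1 l l' e S hT h
  have hex : ∀ b : B, ∃ e : Ch2 Y, b ∈ B' → HomA G (W b) (om π c) (cat γ (al' b))
      (cat (al b) (γ.map (b • ·))) e := by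
    intro b
    by_cases hb : b ∈ B'
    · obtain ⟨e, he⟩ := htk.ex (W b) (hW b hb).1 _ _ (hW b hb).2.2
      exact ⟨e, fun _ => he⟩
    · exact ⟨0, fun h => absurd h hb⟩
  choose D hD using hex
  -- walks
  have wL : ∀ b ∈ B', IsW G x (b • y) (cat γ (al' b)) := fun b hb =>
    MSG.H64.B.isW_cat hγ (hC'.wk b hb)
  have mL : ∀ b ∈ B', ∀ v ∈ cat γ (al' b), v ∈ S := by
    intro b hb v hv
    rcases MSG.H64.B.mem_cat hv with h | h
    · exact hγS v h
    · exact hU' (hC'.mem b hb v h)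
  have wR : ∀ b ∈ B', IsW G x (b • y) (cat (al b) (γ.map (b • ·))) := fun b hb =>
    MSG.H64.B.isW_cat (hC.wk b hb) (isW_smul ha b hγ)
  refine ⟨D, fun b hb => hD b hb, ?_, ?_⟩
  · intro b hb b' hb'
    have hbb : b * b' ∈ B' := B'.mul_mem hb hb'
    -- step 1
    have s1 : HomA G S (om π c) (cat γ (al' (b * b')))
        (cat γ (cat (al' b) ((al' b').map (b • ·)))) 0 := by
      obtain ⟨e, he⟩ := htk.ex U' hU' _ _ (hC'.hom b hb b' hb')
      have he0 : e = 0 := htk.fib U' hU' hUf' _ _ e (hC'.mem _ hbb) he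
      subst he0
      exact hL x y _ _ _ γ _ hγ (hC'.wk _ hbb) (hMoT U' hU' _ _ _ he)
    -- step 2
    have s2 : HomA G S (om π c) (cat (cat γ (al' b)) ((al' b').map (b • ·)))
        (cat (cat (al b) (γ.map (b • ·))) ((al' b').map (b • ·))) (D b) :=
      hR x (b • y) _ _ _ _ _ (wL b hb) (isW_smul ha b (hC'.wk b' hb'))
        (hMoT (W b) (hW b hb).1 _ _ _ (hD b hb))
    -- step 3
    have s3 : HomA G S (om π c) (cat (al b) ((cat γ (al' b')).map (b • ·)))
        (cat (al b) ((cat (al b') (γ.map (b' • ·))).map (b • ·))) (ac2 b (D b')) := by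
      have h := htk.eqv b (W b') (hW b' hb').1 _ _ _ (hW b' hb').2.1 (hD b' hb')
      have hT : {v | b⁻¹ • v ∈ W b'} ⊆ S := by
        intro v hv
        have := hcm.inv b _ ((hW b' hb').1 hv)
        simpa using this
      exact hL x (b • x) _ _ _ (al b) _ (hC.wk b hb) (isW_smul ha b (wL b' hb'))
        (hMoT _ hT _ _ _ h)
    -- step 4
    have s4 : HomA G S (om π c) (cat (cat (al b) ((al b').map (b • ·))) (γ.map ((b * b') • ·)))
        (cat (al (b * b')) (γ.map ((b * b') • ·))) 0 := by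
      obtain ⟨e, he⟩ := htk.ex U hU _ _ (hC.hom b hb b' hb')
      have he0 : e = 0 := htk.fib U hU hUf _ _ e (hC.mem _ hbb) he
      subst he0
      have h := (hSy _ _ _ (fun v hv => hU (hC.mem _ hbb v hv)) (hMoT U hU _ _ _ he)).2
      rw [neg_zero] at h
      have hw : IsW G x ((b * b') • x) (cat (al b) ((al b').map (b • ·))) := by
        have := MSG.H64.B.isW_cat (hC.wk b hb) (isW_smul ha b (hC.wk b' hb'))
        rwa [← mul_smul] at this
      exact hR x ((b * b') • x) _ _ _ _ _ hw (isW_smul ha (b * b') hγ) h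
    -- identifications
    have e1 : cat γ (cat (al' b) ((al' b').map (b • ·))) =
        cat (cat γ (al' b)) ((al' b').map (b • ·)) :=
      (MSG.H64.B.cat_assoc _ _ _ (MSG.H64.B.ne_nil (hC'.wk b hb))).symm
    have e2 : cat (cat (al b) (γ.map (b • ·))) ((al' b').map (b • ·)) =
        cat (al b) ((cat γ (al' b')).map (b • ·)) := by
      rw [MSG.H64.B.cat_map, MSG.H64.B.cat_assoc _ _ _
        (MSG.H64.B.ne_nil (isW_smul ha b hγ))]
    have e3 : cat (al b) ((cat (al b') (γ.map (b' • ·))).map (b • ·)) =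
        cat (cat (al b) ((al b').map (b • ·))) (γ.map ((b * b') • ·)) := by
      rw [MSG.H64.B.cat_map, MSG.H64.B.cat_assoc _ _ _
        (MSG.H64.B.ne_nil (isW_smul ha b (hC.wk b' hb'))), List.map_map]
      congr 2
      refine List.map_congr_left ?_
      intro v _
      simp [mul_smul]
    rw [e1] at s1
    rw [e2] at s2
    rw [e3] at s3
    have t1 := hTr _ _ _ _ _ s1 s2
    have t2 := hTr _ _ _ _ _ t1 s3
    have t3 := hTr _ _ _ _ _ t2 s4
    have t0 := hMoT _ (hW _ hbb).1 _ _ _ (hD _ hbb)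
    have := htk.uniq x ((b * b') • y) _ _ _ _ (wL _ hbb) (mL _ hbb) t0 t3
    rw [this, zero_add, add_zero]
  · intro b hb
    have h := htk.bd x (b • y) _ _ _ (wL b hb) (mL b hb) (hMoT _ (hW _ hb).1 _ _ _ (hD _ hb))
    refine ⟨?_, h.2⟩
    rw [h.1, htk.cate x y (b • y) _ _ hγ (hC'.wk b hb),
      htk.cate x (b • x) (b • y) _ _ (hC.wk b hb) (isW_smul ha b hγ),
      htk.fibe U' hU' hUf' _ (hC'.mem b hb), htk.fibe U hU hUf _ (hC.mem b hb),
      htk.eqe b γ hγS, add_zero, zero_add]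

end MSG.F31
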