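import Pool.Agent.Lib.MP_acafa7_al.F.IfaceC

/-! QCB: quasi-centre for a bounded bottleneck property of the jump relation. -/

namespace MSG.F31

open Classical

section Jumps

variable {V : Type} {G : SimpleGraph V} {F : Set V} {k : ℕ}

theorem jmp_refl {x : V} (hx : x ∈ F) : Jmp G F k 0 x x :=
  ⟨fun _ => x, rfl, rfl, fun _ _ => hx, fun i hi => absurd hi (Nat.not_lt_zero i)⟩

theorem jmp_memL {N : ℕ} {x y : V} (h : Jmp G F k N x y) : x ∈ F := by
  obtain ⟨q, h0, -, hF, -⟩ := h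
  rw [← h0]
  exact hF 0 (Nat.zero_le _)

theorem jmp_memR {N : ℕ} {x y : V} (h : Jmp G F k N x y) : y ∈ F := by
  obtain ⟨q, -, h1, hF, -⟩ := h
  rw [← h1]
  exact hF N le_rfl

/-- the two halves of a path -/
theorem path_left (q : ℕ → V) (N : ℕ) (hF : ∀ i, i ≤ N → q i ∈ F)
    (hq : ∀ i, i < N → G.dist (q i) (q (i + 1)) ≤ k) (i : ℕ) (hi : i ≤ N) :
    Jmp G F k i (q 0) (q i) :=
  ⟨q, rfl, rfl, fun j hj => hF j (hj.trans hi), fun j hj => hq j (lt_of_lt_of_le hj hi)⟩

theorem path_right (q : ℕ → V) (N : ℕ) (hF : ∀ i, i ≤ N → q i ∈ F)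
    (hq : ∀ i, i < N → G.dist (q i) (q (i + 1)) ≤ k) (i : ℕ) (hi : i ≤ N) :
    Jmp G F k (N - i) (q i) (q N) := by
  refine ⟨fun j => q (i + j), rfl, ?_, fun j hj => hF _ (by omega), fun j hj => ?_⟩
  · show q (i + (N - i)) = q N
    rw [Nat.add_sub_cancel' hi]
  · show G.dist (q (i + j)) (q (i + (j + 1))) ≤ k
    exact hq (i + j) (by omega)

theorem jmp_symm {N : ℕ} {x y : V} (h : Jmp G F k N x y) : Jmp G F k N y x := by
  obtain ⟨q, h0, h1, hF, hq⟩ := h
  refine ⟨fun i => q (N - i), by simpa using h1, by simpa using h0, fun i _ => hF _ (by omega),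
    fun i hi => ?_⟩
  show G.dist (q (N - i)) (q (N - (i + 1))) ≤ k
  have h2 : N - i = N - (i + 1) + 1 := by omega
  rw [h2, SimpleGraph.dist_comm]
  exact hq _ (by omega)

/-- concatenation of paths, with the formula -/
theorem path_cat (p q : ℕ → V) (N M : ℕ) (hpq : p N = q 0) (hpF : ∀ i, i ≤ N → p i ∈ F)
    (hqF : ∀ i, i ≤ M → q i ∈ F) (hp : ∀ i, i < N → G.dist (p i) (p (i + 1)) ≤ k)
    (hq : ∀ i, i < M → G.dist (q i) (q (i + 1)) ≤ k) :
    ∃ w : ℕ → V, (∀ i, i ≤ N → w i = p i) ∧ (∀ i, w (N + i) = q i) ∧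
      (∀ i, i ≤ N + M → w i ∈ F) ∧ ∀ i, i < N + M → G.dist (w i) (w (i + 1)) ≤ k := by
  have h1 : ∀ i, i ≤ N → (if i < N then p i else q (i - N)) = p i := by
    intro i hi
    by_cases h : i < N
    · rw [if_pos h]
    · have : i = N := by omega
      subst this
      rw [if_neg h, Nat.sub_self, hpq]
  have h2 : ∀ i, (if N + i < N then p (N + i) else q (N + i - N)) = q i := by
    intro i
    rw [if_neg (by omega), Nat.add_sub_cancel_left]
  refine ⟨fun i => if i < N then p i else q (i - N), h1, h2, ?_, ?_⟩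
  · intro i hi
    by_cases h : i ≤ N
    · show (if i < N then p i else q (i - N)) ∈ F
      rw [h1 i h]
      exact hpF i h
    · obtain ⟨j, rfl⟩ := Nat.exists_eq_add_of_le (by omega : N ≤ i)
      show (if N + j < N then p (N + j) else q (N + j - N)) ∈ F
      rw [h2 j]
      exact hqF j (by omega)
  · intro i hi
    by_cases h : i < N
    · show G.dist (if i < N then p i else q (i - N))
        (if i + 1 < N then p (i + 1) else q (i + 1 - N)) ≤ k
      rw [h1 i h.le, h1 (i + 1) h]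
      exact hp i h
    · obtain ⟨j, rfl⟩ := Nat.exists_eq_add_of_le (by omega : N ≤ i)
      show G.dist (if N + j < N then p (N + j) else q (N + j - N))
        (if N + (j + 1) < N then p (N + (j + 1)) else q (N + (j + 1) - N)) ≤ k
      rw [h2 j, h2 (j + 1)]
      exact hq j (by omega)

theorem jmp_trans {N M : ℕ} {x y z : V} (h : Jmp G F k N x y) (h' : Jmp G F k M y z) :
    Jmp G F k (N + M) x z := by
  obtain ⟨p, hp0, hp1, hpF, hp⟩ := h
  obtain ⟨q, hq0, hq1, hqF, hq⟩ := h'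
  obtain ⟨w, hw1, hw2, hwF, hw⟩ := path_cat p q N M (hp1.trans hq0.symm) hpF hqF hp hq
  exact ⟨w, by rw [hw1 0 (Nat.zero_le _), hp0], by rw [hw2 M, hq1], hwF, hw⟩

theorem jmp_stay {x : V} (hx : x ∈ F) (N : ℕ) : Jmp G F k N x x :=
  ⟨fun _ => x, rfl, rfl, fun _ _ => hx, fun i _ => by
    show G.dist x x ≤ k
    rw [SimpleGraph.dist_self]
    exact Nat.zero_le _⟩

theorem jmp_mono {N M : ℕ} {x y : V} (h : Jmp G F k N x y) (hNM : N ≤ M) :
    Jmp G F k M x y := by
  obtain ⟨d, rfl⟩ := Nat.exists_eq_add_of_le hNM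
  exact jmp_trans h (jmp_stay (jmp_memR h) d)

end Jumps

theorem dist_le_smul {V : Type} {G : SimpleGraph V} {A : Type} [Group A] [MulAction A V]
    (ha : Aut G A) (a : A) {x y : V} (h : G.Reachable x y) :
    G.dist (a • x) (a • y) ≤ G.dist x y := by
  obtain ⟨p, hp⟩ := h.exists_walk_length_eq_dist
  let f : G →g G := ⟨fun v => a • v, fun {u v} h => (ha a u v).2 h⟩
  rw [← hp, ← SimpleGraph.Walk.length_map f p]
  exact SimpleGraph.dist_le _

theorem reach_smul {V : Type} {G : SimpleGraph V} {A : Type} [Group A] [MulAction A V]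
    (ha : Aut G A) (a : A) {x y : V} (h : G.Reachable x y) : G.Reachable (a • x) (a • y) := by
  obtain ⟨p⟩ := h
  let f : G →g G := ⟨fun v => a • v, fun {u v} h => (ha a u v).2 h⟩
  exact ⟨p.map f⟩

theorem dist_smul_le {V : Type} {G : SimpleGraph V} {A : Type} [Group A] [MulAction A V]
    (ha : Aut G A) (a : A) (x y : V) : G.dist (a • x) (a • y) ≤ G.dist x y := by
  by_cases h : G.Reachable x y
  · exact dist_le_smul ha a h
  · have h' : ¬ G.Reachable (a • x) (a • y) := by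
      intro h'
      have := reach_smul ha a⁻¹ h'
      rw [inv_smul_smul, inv_smul_smul] at this
      exact h this
    rw [SimpleGraph.dist_eq_zero_of_not_reachable h']
    exact Nat.zero_le _

theorem jmp_smul {V : Type} {G : SimpleGraph V} {A : Type} [Group A] [MulAction A V]
    (ha : Aut G A) {F : Set V} (hF : ∀ (a : A), ∀ x ∈ F, a • x ∈ F) (a : A) {k N : ℕ} {x y : V}
    (h : Jmp G F k N x y) : Jmp G F k N (a • x) (a • y) := by
  obtain ⟨q, h0, h1, hqF, hq⟩ := h
  refine ⟨fun i => a • q i, by simp only [h0], by simp only [h1], fun i hi => hF a _ (hqF i hi),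
    fun i hi => (dist_smul_le ha a _ _).trans (hq i hi)⟩

theorem qcb_st : QCBStatement := by
  intro V G A _ _ ha F hF k N₁ Δ hB x₀ hx₀ h0
  have hex : ∃ r : ℕ, ∃ c ∈ F, ∀ a : A, Jmp G F k r c (a • x₀) := ⟨N₁, x₀, hx₀, h0⟩
  obtain ⟨c, hc, hcr⟩ := Nat.find_spec hex
  have hrN : Nat.find hex ≤ N₁ := Nat.find_min' hex ⟨x₀, hx₀, h0⟩
  have hmin : ∀ m ∈ F, ∀ r' : ℕ, (∀ a : A, Jmp G F k r' m (a • x₀)) → Nat.find hex ≤ r' :=
    fun m hm r' h => Nat.find_min' hex ⟨m, hm, h⟩
  generalize Nat.find hex = r at hcr hrN hmin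
  refine ⟨c, hc, fun a => ?_⟩
  by_contra hlt
  -- distance from `a c` to the orbit
  have hoac : ∀ a' : A, Jmp G F k r (a' • x₀) (a • c) := by
    intro a'
    have h1 := jmp_smul ha hF a (hcr (a⁻¹ * a'))
    rw [smul_smul, mul_inv_cancel_left] at h1
    exact jmp_symm h1
  have hexn : ∃ n, Jmp G F k n c (a • c) := ⟨r + r, jmp_trans (hcr 1) (hoac 1)⟩
  obtain ⟨P, hP0, hP1, hPF, hP⟩ := Nat.find_spec hexn
  have hn2 : Nat.find hexn ≤ r + r := Nat.find_min' hexn (jmp_trans (hcr 1) (hoac 1))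
  have hnm : ∀ N, Jmp G F k N c (a • c) → Nat.find hexn ≤ N := fun N h => Nat.find_min' hexn h
  generalize Nat.find hexn = n at hP1 hPF hP hn2 hnm
  have hn : 4 * Δ + 2 < n := by
    by_contra hcon
    push Not at hcon
    exact hlt (jmp_mono ⟨P, hP0, hP1, hPF, hP⟩ hcon)
  have hcm : Jmp G F k (n / 2) c (P (n / 2)) := by
    have := path_left P n hPF hP (n / 2) (Nat.div_le_self n 2)
    rwa [hP0] at this
  have hma : Jmp G F k (n - n / 2) (P (n / 2)) (a • c) := by
    have := path_right P n hPF hP (n / 2) (Nat.div_le_self n 2)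
    rwa [hP1] at this
  -- `m = P (n / 2)` is closer to all points of the orbit
  have hbetter : ∀ a' : A, 1 ≤ r ∧ Jmp G F k (r - 1) (P (n / 2)) (a' • x₀) := by
    intro a'
    obtain ⟨p, hp0, hp1, hpF, hp⟩ := hcr a'
    obtain ⟨q, hq0, hq1, hqF, hq⟩ := hoac a'
    obtain ⟨w, hw1, hw2, hwF, hw⟩ := path_cat p q r r (hp1.trans hq0.symm) hpF hqF hp hq
    have hw0 : w 0 = c := by rw [hw1 0 (Nat.zero_le _), hp0]
    have hw3 : w (r + r) = a • c := by rw [hw2 r, hq1]
    obtain ⟨j, hj, hjd⟩ := hB n (r + r) P w (by omega) (by omega) hPF hP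
      (fun N h => hnm N (by rwa [hP0, hP1] at h)) hwF hw (hP0.trans hw0.symm)
      (hP1.trans hw3.symm) (n / 2) (Nat.div_le_self n 2)
    by_cases hjr : j ≤ r
    · rw [hw1 j hjr] at hjd
      have h1 := path_left p r hpF hp j hjr
      have h2 := path_right p r hpF hp j hjr
      rw [hp0] at h1
      rw [hp1] at h2
      have h3 := hnm _ (jmp_trans (jmp_trans h1 (jmp_symm hjd)) hma)
      refine ⟨by omega, jmp_mono (jmp_trans hjd h2) (by omega)⟩
    · obtain ⟨i, rfl⟩ := Nat.exists_eq_add_of_le (by omega : r ≤ j)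
      rw [hw2 i] at hjd
      have h1 := path_left q r hqF hq i (by omega)
      have h2 := path_right q r hqF hq i (by omega)
      rw [hq0] at h1
      rw [hq1] at h2
      have h3 := hnm _ (jmp_trans hcm (jmp_trans hjd h2))
      refine ⟨by omega, jmp_mono (jmp_trans hjd (jmp_symm h1)) (by omega)⟩
  have h1 := (hbetter 1).1
  have h2 := hmin (P (n / 2)) (jmp_memR hcm) (r - 1) (fun a' => (hbetter a').2)
  omega

end MSG.F31
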